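import Pool.Agent.R165.SRW.H

/-!
# MP_a3b629_pr: hitting probabilities of Minkowski sums of random walk ranges

For all `N ≥ 1`, `d > 2N` and finite nonempty `A ⊂ ℤ^d` the ratio `p_A(z) / G_N(z)` converges
as `‖z‖ → ∞`.
-/

namespace Pool.Agent.Results.MP_a3b629_pr.MinkowskiSumHitting

open MeasureTheory ProbabilityTheory Filter Topology Pool.Agent.R165.SRW
open scoped ENNReal

variable {Ω : Type*} {d N : ℕ}

/-- The position `S^i_n` of the `i`-th walk at time `n`. -/
def walk (ξ : Fin N → ℕ → Ω → (Fin d → ℤ)) (i : Fin N) (n : ℕ) (ω : Ω) : Fin d → ℤ :=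
  ∑ j ∈ Finset.range n, ξ i j ω

/-- The set `R^i_∞` of all sites visited by the `i`-th walk. -/
def walkRange (ξ : Fin N → ℕ → Ω → (Fin d → ℤ)) (i : Fin N) (ω : Ω) : Set (Fin d → ℤ) :=
  Set.range (fun n => walk ξ i n ω)

/-- The Minkowski sum `Σ_N` of the ranges. -/
def minkowskiSum (ξ : Fin N → ℕ → Ω → (Fin d → ℤ)) (ω : Ω) : Set (Fin d → ℤ) :=
  {x | ∃ y : Fin N → (Fin d → ℤ), (∀ i, y i ∈ walkRange ξ i ω) ∧ x = ∑ i, y i}

/-- `p_A(z)`. -/
noncomputable def hitProb [MeasurableSpace Ω] (P : Measure Ω) (ξ : Fin N → ℕ → Ω → (Fin d → ℤ))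
    (A : Finset (Fin d → ℤ)) (z : Fin d → ℤ) : ℝ≥0∞ :=
  P {ω | ∃ x ∈ minkowskiSum ξ ω, z + x ∈ A}

/-- Euclidean norm on `ℤ^d`. -/
noncomputable def eucl (z : Fin d → ℤ) : ℝ := Real.sqrt (∑ k, ((z k : ℤ) : ℝ) ^ 2)

lemma hitProb_eq [MeasurableSpace Ω] (P : Measure Ω) (ξ : Fin N → ℕ → Ω → (Fin d → ℤ))
    (A : Finset (Fin d → ℤ)) (z : Fin d → ℤ) : hitProb P ξ A z = pA P ξ A z := by
  unfold hitProb pA
  congr 1
  ext ω
  simp only [Set.mem_ofPred_eq]
  constructor
  · rintro ⟨x, ⟨y, hy, rfl⟩, hx⟩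
    choose n hn using hy
    refine ⟨n, ?_⟩
    unfold hit ps re
    have : ∑ i, y i = ∑ i, ∑ j ∈ Finset.range (n i), ξ i j ω :=
      Finset.sum_congr rfl (fun i _ => (hn i).symm)
    rw [← this]
    exact hx
  · rintro ⟨n, hn⟩
    exact ⟨_, ⟨fun i => walk ξ i (n i) ω, fun i => ⟨n i, rfl⟩, rfl⟩, hn⟩

lemma walk_law [MeasurableSpace Ω] {P : Measure Ω} [IsProbabilityMeasure P]
    {ξ : Fin N → ℕ → Ω → (Fin d → ℤ)} (hd : 0 < d) (H : IsSRWFamily P ξ) (i : Fin N) (n : ℕ)
    (x : Fin d → ℤ) : P {ω | walk ξ i n ω = x} = srw d n x := by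
  have hinj : Function.Injective (fun j : ℕ => (i, j)) := fun a b h => (Prod.mk.inj h).2
  have h1 := sum_law hd H ((Finset.range n).map ⟨fun j => (i, j), hinj⟩) x
  rw [Finset.card_map, Finset.card_range] at h1
  simp only [Finset.sum_map, Function.Embedding.coeFn_mk] at h1
  exact h1

lemma comap_le : comap (eucl (d := d)) atTop ≤ cofinite := by
  rw [Filter.le_cofinite_iff_compl_singleton_mem]
  intro x
  refine ⟨Set.Ioi (eucl x), Ioi_mem_atTop _, ?_⟩
  intro y hy
  rw [Set.mem_preimage, Set.mem_Ioi] at hy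
  rw [Set.mem_compl_iff, Set.mem_singleton_iff]
  rintro rfl
  exact lt_irrefl _ hy

lemma aux_num (k ε δ : ℝ) (hk : 0 ≤ k) (hε : 0 < ε) (hδ0 : 0 ≤ δ)
    (hδ : δ < ε / (4 * (k * k + 1))) : 0 + k * (k * (δ * (1 + 1))) + 0 < ε := by
  rw [lt_div_iff₀ (by positivity)] at hδ
  nlinarith [mul_nonneg (mul_nonneg hk hk) hδ0]

/-- approximate convergence at every scale -/
lemma approx [MeasurableSpace Ω] {P : Measure Ω} [IsProbabilityMeasure P]
    {ξ : Fin N → ℕ → Ω → (Fin d → ℤ)} (hN : 1 ≤ N) (hd : 2 * N < d) (H : IsSRWFamily P ξ)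
    (A : Finset (Fin d → ℤ)) (ε : ℝ) (hε : 0 < ε) :
    ∃ c : ℝ, ∀ᶠ z : Fin d → ℤ in cofinite, |(pA P ξ A z).toReal / gg d N z - c| < ε := by
  have hd0 : 0 < d := by omega
  set κ : ℝ := ε / (4 * ((A.card : ℝ) * A.card + 1)) with hκ
  have hκ0 : 0 < κ := by positivity
  obtain ⟨M, hM⟩ := dl_small (d := d) hN (ENNReal.ofReal κ) (ENNReal.ofReal_pos.mpr hκ0)
  have hdlt : dl d N M ≠ ⊤ := (lt_of_lt_of_le hM le_top).ne
  set δ : ℝ := (dl d N M).toReal with hδ
  have hδκ : δ < κ := by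
    rw [hδ]
    rw [← ENNReal.ofReal_toReal hdlt] at hM
    exact (ENNReal.ofReal_lt_ofReal_iff hκ0).mp hM
  have hδ0 : 0 ≤ δ := ENNReal.toReal_nonneg
  set Y : Finset (Fin d → ℤ) := (l1_finite (d := d) (N * M + ∑ a ∈ A, l1 a)).toFinset with hY
  set V : Finset (Fin d → ℤ) := (l1_finite (d := d) (N * M)).toFinset with hV
  have hVmem : ∀ x, l1 x ≤ N * M → x ∈ V := by
    intro x hx
    rw [hV, Set.Finite.mem_toFinset]
    exact hx
  have hPhi0 : ∀ y, y ∉ Y → Phi P ξ A M y = 0 := by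
    intro y hy
    have h1 : ¬ (l1 y ≤ N * M + ∑ a ∈ A, l1 a) := by
      intro h
      apply hy
      rw [hY, Set.Finite.mem_toFinset]
      exact h
    have h2 : Phi P ξ A M y ≤ ∑ a ∈ A, srw d (∑ i : Fin N, M) (a - y) :=
      le_trans (Qn_le H A M y _) (hit_prob hd0 H A y _)
    have h3 : ∑ a ∈ A, srw d (∑ i : Fin N, M) (a - y) = 0 := by
      apply Finset.sum_eq_zero
      intro a ha
      apply srw_supp d hd0
      have h4 : l1 a ≤ ∑ a ∈ A, l1 a :=
        Finset.single_le_sum (f := fun a : Fin d → ℤ => l1 a) (fun _ _ => Nat.zero_le _) ha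
      have h5 := l1_add_le a (-(a - y))
      rw [l1_neg, show a + -(a - y) = y by abel] at h5
      rw [Finset.sum_const, Finset.card_univ, Fintype.card_fin, smul_eq_mul]
      omega
    rw [h3] at h2
    exact le_antisymm h2 zero_le
  have hPhit : ∀ y, Phi P ξ A M y ≠ ⊤ := fun y =>
    ne_top_of_le_ne_top ENNReal.one_ne_top (le_trans (Qn_le H A M y _) prob_le_one)
  have hG := GN_ne_top d N hN hd
  -- main term
  have hmain : ∀ z, ∑' y, Phi P ξ A M y * GN d N (y - z) =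
      ∑ y ∈ Y, Phi P ξ A M y * GN d N (y - z) := by
    intro z
    apply tsum_eq_sum
    intro y hy
    rw [hPhi0 y hy, zero_mul]
  have hbdle : ∀ x, bd d N M x ≤ GN d N x := by
    intro x
    rw [bd_eq hd0 N M x]
    exact le_add_self
  have hbdt : ∀ x, bd d N M x ≠ ⊤ := fun x => ne_top_of_le_ne_top (hG x) (hbdle x)
  -- real form of the boundary
  have hbdr : ∀ x, gg d N x = ∑ v ∈ V, pr d (N * M) v * gg d N (x - v) +
      (bd d N M x).toReal := by
    intro x
    have h1 := bd_eq hd0 N M x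
    rw [tsum_eq_sum (s := V)] at h1
    · have h2 := congrArg ENNReal.toReal h1
      rw [ENNReal.toReal_add _ (hbdt x), ENNReal.toReal_sum] at h2
      · unfold gg
        rw [h2]
        congr 1
        apply Finset.sum_congr rfl
        intro v _
        rw [ENNReal.toReal_mul, srw_eq d hd0, ENNReal.toReal_ofReal (pr_nonneg _ _ _)]
      · intro v _
        rw [srw_eq d hd0]
        exact ENNReal.mul_ne_top ENNReal.ofReal_ne_top (hG _)
      · apply (ENNReal.sum_lt_top.mpr _).ne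
        intro v _
        rw [srw_eq d hd0]
        exact ENNReal.mul_lt_top ENNReal.ofReal_lt_top (hG _).lt_top
    · intro v hv
      rw [srw_supp d hd0 (N * M) v, zero_mul]
      by_contra h
      exact hv (hVmem v (by omega))
  have hT1a : ∀ a : Fin d → ℤ, Tendsto (fun z => (bd d N M (a - z)).toReal / gg d N z) cofinite
      (𝓝 0) := by
    intro a
    have h1 : Tendsto (fun z => gg d N (a - z) / gg d N z -
        ∑ v ∈ V, pr d (N * M) v * (gg d N (a - v - z) / gg d N z)) cofinite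
        (𝓝 (1 - ∑ v ∈ V, pr d (N * M) v * 1)) := by
      apply (ratio_sub d N hN hd a).sub
      apply tendsto_finsetSum
      intro v _
      exact (ratio_sub d N hN hd (a - v)).const_mul _
    simp only [mul_one] at h1
    rw [pr_mass d hd0 (N * M) V hVmem, sub_self] at h1
    apply h1.congr
    intro z
    have h2 := hbdr (a - z)
    have h3 : (bd d N M (a - z)).toReal = gg d N (a - z) -
        ∑ v ∈ V, pr d (N * M) v * gg d N (a - z - v) := by linarith
    rw [h3, sub_div, Finset.sum_div]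
    congr 1
    apply Finset.sum_congr rfl
    intro v _
    rw [show a - v - z = a - z - v by abel, mul_div_assoc]
  have hT1 : Tendsto (fun z => ∑ a ∈ A, (bd d N M (a - z)).toReal / gg d N z) cofinite
      (𝓝 (∑ a ∈ A, 0)) := tendsto_finsetSum _ fun a _ => hT1a a
  have hT2 : Tendsto (fun z => ∑ a ∈ A, ∑ a' ∈ A,
      δ * (gg d N (a' - z) / gg d N z + gg d N (a - z) / gg d N z)) cofinite
      (𝓝 (∑ a ∈ A, ∑ a' ∈ A, δ * (1 + 1))) := by
    apply tendsto_finsetSum
    intro a _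
    apply tendsto_finsetSum
    intro a' _
    exact ((ratio_sub d N hN hd a').add (ratio_sub d N hN hd a)).const_mul δ
  have hT3 : Tendsto (fun z => ∑ y ∈ Y, (Phi P ξ A M y).toReal *
      (gg d N (y - z) / gg d N z)) cofinite (𝓝 (∑ y ∈ Y, (Phi P ξ A M y).toReal * 1)) := by
    apply tendsto_finsetSum
    intro y _
    exact (ratio_sub d N hN hd y).const_mul _
  simp only [Finset.sum_const_zero] at hT1
  simp only [mul_one] at hT3
  refine ⟨∑ y ∈ Y, (Phi P ξ A M y).toReal, ?_⟩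
  -- the key inequality
  have hkey : ∀ z, |(pA P ξ A z).toReal / gg d N z - ∑ y ∈ Y, (Phi P ξ A M y).toReal *
      (gg d N (y - z) / gg d N z)| ≤ ∑ a ∈ A, (bd d N M (a - z)).toReal / gg d N z +
      ∑ a ∈ A, ∑ a' ∈ A, δ * (gg d N (a' - z) / gg d N z + gg d N (a - z) / gg d N z) := by
    intro z
    have hg := gg_pos d N hN hd z
    have hpt : pA P ξ A z ≠ ⊤ := ne_top_of_le_ne_top ENNReal.one_ne_top prob_le_one
    have hmt : ∑ y ∈ Y, Phi P ξ A M y * GN d N (y - z) ≠ ⊤ :=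
      (ENNReal.sum_lt_top.mpr fun y _ => ENNReal.mul_lt_top (hPhit y).lt_top (hG _).lt_top).ne
    have hbt : ∑ a ∈ A, bd d N M (a - z) ≠ ⊤ :=
      (ENNReal.sum_lt_top.mpr fun a _ => (hbdt _).lt_top).ne
    have het : ∑ a ∈ A, ∑ a' ∈ A, dl d N M * (GN d N (a' - z) + GN d N (a - z)) ≠ ⊤ :=
      (ENNReal.sum_lt_top.mpr fun a _ => ENNReal.sum_lt_top.mpr fun a' _ =>
        ENNReal.mul_lt_top hdlt.lt_top (ENNReal.add_lt_top.mpr
          ⟨(hG _).lt_top, (hG _).lt_top⟩)).ne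
    have h1 : pA P ξ A z ≤ ∑ y ∈ Y, Phi P ξ A M y * GN d N (y - z) +
        ∑ a ∈ A, bd d N M (a - z) := by
      refine le_trans (sandwich_lower H A M z) ?_
      rw [Q_split hd0 H A M z, hmain z]
      gcongr
      exact boundary_le hd0 H A M z
    have h2 : ∑ y ∈ Y, Phi P ξ A M y * GN d N (y - z) ≤ pA P ξ A z +
        ∑ a ∈ A, ∑ a' ∈ A, dl d N M * (GN d N (a' - z) + GN d N (a - z)) := by
      rw [← hmain z]
      refine le_trans ?_ (le_trans (sandwich_upper H A M z) ?_)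
      · rw [Q_split hd0 H A M z]
        exact le_self_add
      · gcongr
        exact error_le H hd A M z
    have h1' := ENNReal.toReal_mono (ENNReal.add_ne_top.mpr ⟨hmt, hbt⟩) h1
    have h2' := ENNReal.toReal_mono (ENNReal.add_ne_top.mpr ⟨hpt, het⟩) h2
    rw [ENNReal.toReal_add hmt hbt] at h1'
    rw [ENNReal.toReal_add hpt het] at h2'
    have e1 : (∑ y ∈ Y, Phi P ξ A M y * GN d N (y - z)).toReal =
        ∑ y ∈ Y, (Phi P ξ A M y).toReal * gg d N (y - z) := by
      rw [ENNReal.toReal_sum (fun y _ => ENNReal.mul_ne_top (hPhit y) (hG _))]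
      apply Finset.sum_congr rfl
      intro y _
      rw [ENNReal.toReal_mul]; rfl
    have e2 : (∑ a ∈ A, bd d N M (a - z)).toReal = ∑ a ∈ A, (bd d N M (a - z)).toReal :=
      ENNReal.toReal_sum (fun a _ => hbdt _)
    have e3 : (∑ a ∈ A, ∑ a' ∈ A, dl d N M * (GN d N (a' - z) + GN d N (a - z))).toReal =
        ∑ a ∈ A, ∑ a' ∈ A, δ * (gg d N (a' - z) + gg d N (a - z)) := by
      rw [ENNReal.toReal_sum (fun a _ => (ENNReal.sum_lt_top.mpr fun a' _ =>
        ENNReal.mul_lt_top hdlt.lt_top (ENNReal.add_lt_top.mpr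
          ⟨(hG _).lt_top, (hG _).lt_top⟩)).ne)]
      apply Finset.sum_congr rfl
      intro a _
      rw [ENNReal.toReal_sum (fun a' _ => ENNReal.mul_ne_top hdlt (ENNReal.add_ne_top.mpr
          ⟨hG _, hG _⟩))]
      apply Finset.sum_congr rfl
      intro a' _
      rw [ENNReal.toReal_mul, ENNReal.toReal_add (hG _) (hG _)]
      rfl
    rw [e1, e2] at h1'
    rw [e1, e3] at h2'
    have f1 : ∑ y ∈ Y, (Phi P ξ A M y).toReal * (gg d N (y - z) / gg d N z) =
        (∑ y ∈ Y, (Phi P ξ A M y).toReal * gg d N (y - z)) / gg d N z := by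
      rw [Finset.sum_div]
      apply Finset.sum_congr rfl
      intro y _
      rw [mul_div_assoc]
    have f2 : ∑ a ∈ A, (bd d N M (a - z)).toReal / gg d N z =
        (∑ a ∈ A, (bd d N M (a - z)).toReal) / gg d N z := by rw [Finset.sum_div]
    have f3 : ∑ a ∈ A, ∑ a' ∈ A, δ * (gg d N (a' - z) / gg d N z + gg d N (a - z) / gg d N z) =
        (∑ a ∈ A, ∑ a' ∈ A, δ * (gg d N (a' - z) + gg d N (a - z))) / gg d N z := by
      rw [Finset.sum_div]
      apply Finset.sum_congr rfl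
      intro a _
      rw [Finset.sum_div]
      apply Finset.sum_congr rfl
      intro a' _
      rw [mul_div_assoc, add_div]
    rw [f1, f2, f3, ← sub_div, ← add_div, abs_div, abs_of_pos hg]
    apply div_le_div_of_nonneg_right _ hg.le
    have g1 : 0 ≤ ∑ a ∈ A, (bd d N M (a - z)).toReal :=
      Finset.sum_nonneg fun _ _ => ENNReal.toReal_nonneg
    have g2 : 0 ≤ ∑ a ∈ A, ∑ a' ∈ A, δ * (gg d N (a' - z) + gg d N (a - z)) :=
      Finset.sum_nonneg fun a _ => Finset.sum_nonneg fun a' _ =>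
        mul_nonneg hδ0 (add_nonneg (gg_pos d N hN hd _).le (gg_pos d N hN hd _).le)
    rw [abs_le]
    constructor <;> linarith
  have hT4 := (hT3.sub_const (∑ y ∈ Y, (Phi P ξ A M y).toReal)).abs
  rw [sub_self, abs_zero] at hT4
  have hT5 := (hT1.add hT2).add hT4
  have hlim : 0 + ∑ a ∈ A, ∑ a' ∈ A, δ * (1 + 1) + 0 < ε := by
    rw [Finset.sum_const, Finset.sum_const, nsmul_eq_mul, nsmul_eq_mul]
    exact aux_num _ ε δ (Nat.cast_nonneg _) hε hδ0 hδκ
  filter_upwards [hT5.eventually (gt_mem_nhds hlim)] with z hz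
  refine lt_of_le_of_lt ?_ hz
  refine le_trans (abs_sub_le _ (∑ y ∈ Y, (Phi P ξ A M y).toReal *
      (gg d N (y - z) / gg d N z)) _) ?_
  gcongr
  exact hkey z

/-- **Main theorem.** For every `N ≥ 1`, `d > 2N` and finite nonempty `A ⊂ ℤ^d`, the ratio
`p_A(z) / G_N(z)` converges as `‖z‖ → ∞`. -/
theorem result (N d : ℕ) (hN : 1 ≤ N) (hd : 2 * N < d) (A : Finset (Fin d → ℤ))
    (_hA : A.Nonempty) {Ω : Type*} [MeasurableSpace Ω] (P : Measure Ω) [IsProbabilityMeasure P]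
    (ξ : Fin N → ℕ → Ω → (Fin d → ℤ)) (H : IsSRWFamily P ξ) :
    (∀ i n x, P {ω | walk ξ i n ω = x} = srw d n x) ∧
    (∀ z, greenConv d N z ≠ 0 ∧ greenConv d N z ≠ ⊤) ∧
    ∃ L : ℝ, Tendsto (fun z : Fin d → ℤ =>
      (hitProb P ξ A z).toReal / (greenConv d N z).toReal) (comap eucl atTop) (𝓝 L) := by
  have hd0 : 0 < d := by omega
  refine ⟨fun i n x => walk_law hd0 H i n x, fun z => ?_, ?_⟩
  · rw [greenConv_eq d hd0]
    exact ⟨GN_ne_zero d N hN hd0 z, GN_ne_top d N hN hd z⟩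
  · have : Nonempty (Fin d) := ⟨⟨0, hd0⟩⟩
    have hcauchy : Cauchy (Filter.map (fun z : Fin d → ℤ => (pA P ξ A z).toReal / gg d N z)
        cofinite) := by
      rw [Metric.cauchy_iff]
      refine ⟨inferInstance, fun ε hε => ?_⟩
      obtain ⟨c, hc⟩ := approx hN hd H A (ε / 2) (by positivity)
      refine ⟨Metric.ball c (ε / 2), ?_, ?_⟩
      · rw [Filter.mem_map]
        filter_upwards [hc] with z hz
        rw [Set.mem_preimage, Metric.mem_ball, Real.dist_eq]
        exact hz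
      · intro x hx y hy
        have := dist_triangle_right x y c
        rw [Metric.mem_ball] at hx hy
        linarith
    obtain ⟨L, hL⟩ := CompleteSpace.complete hcauchy
    refine ⟨L, ?_⟩
    have h1 : Tendsto (fun z : Fin d → ℤ => (pA P ξ A z).toReal / gg d N z) cofinite (𝓝 L) := hL
    have h2 := h1.mono_left (comap_le (d := d))
    apply h2.congr
    intro z
    rw [hitProb_eq, greenConv_eq d hd0]
    rfl

end Pool.Agent.Results.MP_a3b629_pr.MinkowskiSumHitting
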